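import Pool.Agent.Helper30.TG.Asm

/-!
The exact value of `t_gen(n)`, the minimum number of triangular faces in a generic convex drawing
of the complete graph `K_n`: `t_gen(n) = (3n² - 15n + 20) / 2` for all `n ≥ 3`.
-/

namespace Pool.Agent.Results.MP_c17047_co.ExactGeneric

open Pool.Agent.Helper30.TriFace

theorem result (n : ℕ) (hn : 3 ≤ n) : 2 * tgen n + 15 * n = 3 * n ^ 2 + 20 :=
  Pool.Agent.Helper30.TG.Asm.exact_gen hn

end Pool.Agent.Results.MP_c17047_co.ExactGeneric
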