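import Pool.Agent.Helper30.TG.Asm

/-!
Bounds for `t(n)`, the minimum number of triangular faces in a convex drawing of the complete graph
`K_n`: `(4n² - 19n + 24) / 3 ≤ t(n) ≤ (3n² - 15n + 20) / 2` for all `n ≥ 3`.
-/

namespace Pool.Agent.Results.MP_c17047_co.GrowthOfT

open Pool.Agent.Helper30.TriFace

theorem result (n : ℕ) (hn : 3 ≤ n) :
    4 * n ^ 2 + 24 ≤ 3 * t n + 19 * n ∧ 2 * t n + 15 * n ≤ 3 * n ^ 2 + 20 :=
  Pool.Agent.Helper30.TG.Asm.bounds_t hn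

end Pool.Agent.Results.MP_c17047_co.GrowthOfT
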