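import Pool.Agent.Helper30.TR.Asm

/-!
The number `t_reg(n)` of triangular faces of the regular drawing of `K_n` has order `n⁴`.
-/

namespace Pool.Agent.Results.MP_c17047_co.RegularGrowth

open Pool.Agent.Helper30.TR

theorem result : (∃ c : ℝ, 0 < c ∧ ∀ n : ℕ, 3 ≤ n → c * (n : ℝ) ^ 4 ≤ treg n) ∧
    ∀ n : ℕ, treg n ≤ 4 * n ^ 4 :=
  treg_order

end Pool.Agent.Results.MP_c17047_co.RegularGrowth
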